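import Mathlib
import Pool.Agent.H60.AL.Fin

/-!
# Almost sure lower and Assouad dimensions of self-affine sets with random translations

For every `d ≥ 2` and all `0 < s < t < 1` there are two diagonal matrices of size `d`, of norm less
than one half, such that for almost every choice of the translations the self-affine set has the
lower dimension `s` and the Assouad dimension `t`. So the answer to Q1 is no in every dimension
`d ≥ 2`, and every pair of numbers `0 < s < t < 1` occurs.

The matrices are `diag (lam, μ i, …, μ i)`, `i = 0, 1`, with `2 lam ^ t = 1`,
`μ 0 ^ s + μ 1 ^ s = 1` and `lam < μ 1 < 1/2`. For almost every translation the two pieces have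
disjoint projections to the first two axes. With the scales `X` and `Y` in the first and in the
other coordinates the function `X ^ t + Y ^ s` is invariant under `(X, Y) ↦ (lam X, μ i Y)`, and it
counts the covering sets of size one. A cylinder is either long in the first coordinate, and looks
there like a self-similar set of dimension `t`, or long in the other coordinates, where it looks
like a self-similar set of dimension `s`.

Definitions (`Pool/Agent/H60/AL/Core.lean`): `covN`, `dimA`, `dimL`, `IsAttractor`.
-/

set_option autoImplicit false

open MeasureTheory Metric Set
open scoped ENNReal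

namespace Pool.Agent.Results.MP_b039ef_an.PrescribedDimensions

open Pool.Agent.H60.AL

theorem result (d : ℕ) (hd : 2 ≤ d) (s t : ℝ) (hs : 0 < s) (hst : s < t) (ht : t < 1) :
    ∃ A : Fin 2 → E d →L[ℝ] E d, (∀ i, Function.Bijective (A i) ∧ ‖A i‖ < 1 / 2) ∧
      (∀ v, ∃ F, IsAttractor A v F) ∧
      ∀ᵐ v : Fin 2 → E d, ∀ F, IsAttractor A v F →
        dimL F = ENNReal.ofReal s ∧ dimA F = ENNReal.ofReal t :=
  main hd hs hst ht

end Pool.Agent.Results.MP_b039ef_an.PrescribedDimensions
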